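import Pool.Agent.H723.QR.BlockLog
import Pool.Agent.H723.QR.Theta
import Pool.Agent.H723.QJ.CombMost

/-!
# MP_f2f914_nt: the block complexity of the digits of algebraic numbers, in all bases

Let `ξ` be a real algebraic irrational number, let `digit b ξ n` be the `n`-th digit of `ξ` after
the point in base `b`, and let `complexity b ξ n` be the number of the different blocks of `n`
consecutive digits (`b ^ n` for a normal number).

1. For every `D` there is a constant `A`, which depends on `ξ` and `D` only, so that for **all**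
   bases `b` and all real `C ≥ 1`: the lengths `n` for which some `D` windows of `n` digits, which
   start at different places `≤ C n`, are linearly dependent over the real numbers contain at most
   `A C ^ 2 (1 + log C)` lengths each of which is at least twice the preceding one.
2. Almost all lengths, in the sense of logarithmic density: for every `ε > 0` there are `c > 0` and
   `N₀`, so that for all bases `b` and all `N ≥ N₀` the sum of `1 / n` over the `n ≤ N` with
   `complexity n < c n (log N / log log N) ^ (1 / 2)` is at most `ε log N`.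
3. In particular for every `θ < 1 / 2` one has `complexity n ≥ n (log n) ^ θ` for all `n` outside a
   set of logarithmic density zero (uniformly in the base).
4. The statement 2 holds for all sequences `a_0 digit m + ⋯ + a_(r-1) digit (m + r - 1)`, `m ≥ 1`,
   with real coefficients which are not all zero, with `c`, `N₀` and the set of the exceptional `n`
   independent of the coefficients.

The bound known before is `n (log n) ^ η` for infinitely many `n`, for `η < 1 / 11` (Bugeaud and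
Evertse).  The proof is a quantitative subspace theorem with auxiliary polynomials whose weights
are different for each approximation, and a version of Roth's lemma with a polynomial condition for
the quotients of the degrees, which comes from an elementary form of Faltings' product theorem.
-/

set_option autoImplicit false

namespace Pool.Agent.Results.MP_f2f914_nt.BlockComplexity

open Finset

/-- the `n`-th digit after the point of `ξ` in base `b` -/
noncomputable def digit (b : ℕ) (ξ : ℝ) (n : ℕ) : ℤ := ⌊ξ * (b : ℝ) ^ n⌋ % (b : ℤ)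

/-- the number of the different blocks of `n` consecutive digits after the point -/
noncomputable def complexity (b : ℕ) (ξ : ℝ) (n : ℕ) : ℕ :=
  (Set.range (fun (t : ℕ) (i : Fin n) => digit b ξ (t + i + 1))).ncard

/-- the number of the different blocks of `n` consecutive terms of the sequence
`a 0 * digit m + a 1 * digit (m + 1) + ⋯ + a (r - 1) * digit (m + r - 1)`, `m ≥ 1` -/
noncomputable def combComplexity {r : ℕ} (b : ℕ) (ξ : ℝ) (a : Fin r → ℝ) (n : ℕ) : ℕ :=
  (Set.range (fun (t : ℕ) (i : Fin n) =>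
    ∑ j : Fin r, a j * (digit b ξ (t + i + 1 + j) : ℝ))).ncard

/-- Windows of digits of an algebraic irrational number, in all bases. -/
theorem result (ξ : ℝ) (hξ : IsAlgebraic ℚ ξ) (hirr : Irrational ξ) :
    (∀ D : ℕ, ∃ A : ℝ, ∀ b : ℕ, 2 ≤ b → ∀ C : ℝ, 1 ≤ C → ∀ S : Finset ℕ, (∀ n ∈ S, 1 ≤ n) →
      (∀ n ∈ S, ∀ n' ∈ S, n < n' → 2 * n ≤ n') →
      (∀ n ∈ S, ∃ t : Fin D → ℕ, Function.Injective t ∧ (∀ j, (t j : ℝ) ≤ C * n) ∧
        ¬ LinearIndependent ℝ (fun (j : Fin D) (i : Fin n) => (digit b ξ (t j + i + 1) : ℝ))) →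
      (#S : ℝ) ≤ A * (C ^ 2 * (1 + Real.log C))) ∧
    (∀ ε : ℝ, 0 < ε → ∃ c : ℝ, 0 < c ∧ ∃ N₀ : ℕ, ∀ b : ℕ, 2 ≤ b → ∀ N ≥ N₀,
      ∑ n ∈ {n ∈ Icc 1 N | (complexity b ξ n : ℝ) <
        c * (n * (Real.log N / Real.log (Real.log N)) ^ (1 / 2 : ℝ))}, (1 : ℝ) / n ≤
        ε * Real.log N) ∧
    (∀ θ : ℝ, 0 ≤ θ → θ < 1 / 2 → ∀ ε : ℝ, 0 < ε → ∃ N₀ : ℕ, ∀ b : ℕ, 2 ≤ b → ∀ N ≥ N₀,
      ∑ n ∈ {n ∈ Icc 1 N | (complexity b ξ n : ℝ) < n * Real.log n ^ θ}, (1 : ℝ) / n ≤
        ε * Real.log N) ∧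
    (∀ r : ℕ, ∀ ε : ℝ, 0 < ε → ∃ c : ℝ, 0 < c ∧ ∃ N₀ : ℕ, ∀ b : ℕ, 2 ≤ b → ∀ N ≥ N₀,
      ∃ E : Finset ℕ, ∑ n ∈ E, (1 : ℝ) / n ≤ ε * Real.log N ∧
      ∀ n : ℕ, 1 ≤ n → n ≤ N → n ∉ E → ∀ a : Fin r → ℝ, a ≠ 0 →
        c * (n * (Real.log N / Real.log (Real.log N)) ^ (1 / 2 : ℝ)) ≤
          combComplexity b ξ a n) := by
  refine ⟨fun D => ?_, fun ε hε => Pool.Agent.H723.QR.block_log ξ hξ hirr ε hε,
    fun θ hθ0 hθ ε hε => ?_, fun r ε hε => ?_⟩
  · obtain ⟨A, _, h⟩ := Pool.Agent.H723.QR.thinR D ξ hξ hirr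
    refine ⟨A, fun b hb C hC S h1 h2 h3 => h b hb C hC S ⟨h1, h2⟩ fun n hn => ?_⟩
    obtain ⟨t, ht1, ht2, ht3⟩ := h3 n hn
    exact ⟨D, le_rfl, t, ht1, ht2, ht3⟩
  · obtain ⟨c, hc, N₀, h⟩ := Pool.Agent.H723.QR.block_log ξ hξ hirr ε hε
    obtain ⟨N₁, h1⟩ := Pool.Agent.H723.QR.theta_of_log c hc θ hθ0 hθ
    refine ⟨max N₀ N₁, fun b hb N hN => le_trans ?_ (h b hb N ((le_max_left _ _).trans hN))⟩
    apply Finset.sum_le_sum_of_subset_of_nonneg
    · intro n hn
      rw [mem_filter, mem_Icc] at hn ⊢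
      exact ⟨hn.1, hn.2.trans_le (h1 N ((le_max_right _ _).trans hN) n hn.1.1 hn.1.2)⟩
    · intro n _ _
      positivity
  · obtain ⟨c, hc, N₀, h⟩ := Pool.Agent.H723.QJ.comb_most (fun _ : Fin 1 => ξ) (fun _ => hξ)
      (Pool.Agent.H723.QJ.lin_one hirr) r ε hε
    refine ⟨c, hc, N₀, fun b hb N hN => ?_⟩
    obtain ⟨E, hE, hgood⟩ := h b hb N hN
    refine ⟨E, hE, fun n hn1 hnN hnE a ha => ?_⟩
    have h1 := hgood n hn1 hnN hnE (fun _ => a) (fun h0 => ha (congrFun h0 0))
    have h2 : (fun (t : ℕ) (i : Fin n) => Pool.Agent.H723.QJ.comb b (fun _ : Fin 1 => ξ)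
        (fun _ => a) (t + i + 1)) = (fun (t : ℕ) (i : Fin n) =>
        ∑ j : Fin r, a j * (digit b ξ (t + i + 1 + j) : ℝ)) := by
      funext t i
      simp only [Pool.Agent.H723.QJ.comb, Finset.univ_unique, Finset.sum_singleton]
      rfl
    rw [h2] at h1
    exact h1

end Pool.Agent.Results.MP_f2f914_nt.BlockComplexity
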