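import Pool.Agent.H609.EN.Final

/-!
# Explicit algebraic irrational numbers of height `H` whose first `o((log H) ^ 2)` digits are normal

Let `b ≥ 2` be a base and `P ≥ 1` an integer which is coprime to `b`. For all `d ≥ 2`, all large `n` and all
`q ≥ 1` all prime factors of which divide `P` the number

  `α = (1 + d ^ 2 P / b ^ n) ^ (1 / d) / q`

is algebraic of degree exactly `d`, its minimal polynomial over `ℤ` divides
`q ^ d b ^ n X ^ d - (b ^ n + d ^ 2 P)`, and in EVERY window of places `s ≤ j < s + L` and for EVERY interval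
`[u, v) ⊆ [0, 1)` the number of the `j` with `u ≤ {b ^ j α} < v` (for `u = a / b ^ k`, `v = (a + 1) / b ^ k` this
is the number of the occurrences of a word of `k` digits) is `(v - u) L` up to an error of at most

  `C (L / q + (q + (s + L) / n) (L / n + 1))`,

where `C` depends on `b`, `P` and `d` only. If `q` is about `√n` (e.g. a power of `b + 1`, with `P = b + 1`), the
logarithm of the height `H` of `α` is about a constant times `n`, and the error in a window of length `L ≥ n`
is at most `C' L (n ^ (-1/2) + (s + L) / n ^ 2)`. So the first `N` digits are equidistributed, words of all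
lengths included, with a power saving for all `N` between `(log H) ^ (1 + δ)` and `(log H) ^ (2 - δ)`, with an
error which tends to `0` if `N / log H → ∞` and `N / (log H) ^ 2 → 0`, and with an error `ε` up to
`c_ε (log H) ^ 2`.

The general theorem is about the values `S = F(b ^ (-n))` of the power series `F` with integral coefficients
which are algebraic over `ℚ(x)`, not rational, and modulo `P` equal to a constant coprime to `P`: for large `n`
the numbers `S / q` are irrational algebraic numbers, and have the same property.

No exceptional set occurs; all the earlier results of this kind (for at most `A log H`,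
`(log H) ^ (3/2 - ε)` or `c (log H) ^ 2` digits) concern most members of a large family, and do not give a
single number.

Proof. Between the places `n κ` and `n (κ + 1)`, except for the last `O(κ + 1)` of them, `b ^ j α` is congruent
modulo `1` to `b ^ i U / q` up to an error of at most `1 / (2 q)`, with an integer `U = U(κ)` which is coprime to
`q`, as the coefficients of `F` are constant modulo `P` (`XP.Series`). Put `E = 2 φ(P)` and let `A` be the part of
`b ^ E - 1` composed of the primes of `P`. By lifting the exponent, `q` divides `b ^ (E m) - 1` only if it divides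
`A m` (`EN.P_ORD3`); so the powers of `b ^ E` run through all the residue classes modulo `q` which are `1` modulo
`gcd(q, A)`, and every full period is equidistributed (`EN.P_RUN3`). Then arbitrary windows are cut into full
periods (`XP.Block`, `EN.P_DIG3`). The number `α` is the value of `(1 + d ^ 2 P x) ^ (1 / d)`, which is a power
series with integral coefficients and constant modulo `P` (`XP.Root`, a fixed point of `W = 1 + x Q(W)`). That
its degree is `d` follows from a general theorem on the degree of the values of algebraic power series at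
`b ^ (-n)` (`Pool.Agent.H609.JT.Deg`, a case of a theorem of Sprindzhuk).
-/

set_option autoImplicit false

namespace Pool.Agent.Results.MP_f2f914_nt.ExplicitNumbers

open Finset

/-- In all windows of places `s ≤ j < s + L` and for all intervals `[u, v) ⊆ [0, 1)` the number of the `j` with
`u ≤ {b ^ j α} < v` is `(v - u) L` up to an error of at most
`C (L / q + (q + (s + L) / n) (L / n + 1))`. (With `u = a / b ^ k` and `v = (a + 1) / b ^ k` these are the
occurrences of a word of `k` digits.) -/
def Controlled (b n : ℕ) (q C α : ℝ) : Prop :=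
  ∀ (s L : ℕ) (u v : ℝ), 0 ≤ u → u ≤ v → v ≤ 1 →
    |((({j ∈ range L | u ≤ Int.fract ((b : ℝ) ^ (s + j) * α) ∧
      Int.fract ((b : ℝ) ^ (s + j) * α) < v} : Finset ℕ).card : ℕ) : ℝ) - (v - u) * L| ≤
      C * (L / q + (q + (s + L) / n) * (L / n + 1))

/-- **Explicit algebraic numbers with equidistributed digits.** Let `b ≥ 2` and let `P ≥ 1` be coprime to `b`.
(1) For every `d ≥ 2`, all large `n` and all divisors `q` of powers of `P` the numbers
`(1 + d ^ 2 P / b ^ n) ^ (1 / d) / q` are algebraic of degree `d`, and their digits in base `b` are controlled in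
all windows. (2) The same holds for the values at `b ^ (-n)`, divided by `q`, of all power series with integral
coefficients which are algebraic, not rational, and modulo `P` equal to a constant coprime to `P`. -/
theorem result (b : ℕ) (hb : 2 ≤ b) (P : ℕ) (hP : 1 ≤ P) (hbP : Nat.Coprime b P) :
    (∀ d : ℕ, 2 ≤ d → ∃ C : ℝ, 0 < C ∧ ∃ n₀ : ℕ, ∀ n : ℕ, n₀ ≤ n →
      ∀ q k : ℕ, 1 ≤ q → q ∣ P ^ k →
        let α : ℝ := (1 + (d : ℝ) ^ 2 * P / (b : ℝ) ^ n) ^ (1 / (d : ℝ)) / (q : ℝ)
        (minpoly ℚ α).natDegree = d ∧ Controlled b n q C α) ∧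
    (∀ F : PowerSeries ℤ, IsAlgebraic (Polynomial ℚ) (F.map (Int.castRingHom ℚ)) →
      (∀ R Q : Polynomial ℚ, (Q : PowerSeries ℚ) * F.map (Int.castRingHom ℚ) = (R : PowerSeries ℚ) →
        Q = 0) →
      IsCoprime (PowerSeries.coeff 0 F) (P : ℤ) → (∀ k, 1 ≤ k → (P : ℤ) ∣ PowerSeries.coeff k F) →
      ∃ A : ℕ, ∃ C : ℝ, 0 < C ∧ ∃ n₀ : ℕ, ∀ n : ℕ, n₀ ≤ n → ∃ S : ℝ,
        HasSum (fun k : ℕ => ((PowerSeries.coeff k F : ℤ) : ℝ) * (((b : ℝ) ^ n)⁻¹) ^ k) S ∧
        Irrational S ∧
        (∃ R : Polynomial ℤ, R ≠ 0 ∧ R.natDegree ≤ A ∧ (∀ k, |R.coeff k| ≤ (b : ℤ) ^ (A * n)) ∧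
          Polynomial.aeval S R = 0) ∧
        ∀ q k : ℕ, 1 ≤ q → q ∣ P ^ k → Controlled b n q C (S / q)) := by
  refine ⟨fun d hd => ?_, fun F hF hr h0 hk => ?_⟩
  · obtain ⟨C, hC, n₀, h⟩ := Pool.Agent.H609.EN.roots Pool.Agent.H609.EN.all3 hb hd hP hbP
    exact ⟨C, hC, n₀, fun n hn q k h1 h2 => h n hn q k h1 h2⟩
  · obtain ⟨A, C, hC, n₀, h⟩ :=
      Pool.Agent.H609.EN.general Pool.Agent.H609.EN.all3 F hF hr hb hP hbP h0 hk
    exact ⟨A, C, hC, n₀, fun n hn => h n hn⟩

end Pool.Agent.Results.MP_f2f914_nt.ExplicitNumbers
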