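import Pool.Agent.H609.RD.Final2
import Pool.Agent.H609.RD.P_WID
import Pool.Agent.H609.RD.P_VAL4
import Pool.Agent.H609.RD.P_TL
import Pool.Agent.H609.RD.P_CUT
import Pool.Agent.H609.RD.P_BLO
import Pool.Agent.H609.RD.P_FIN
import Pool.Agent.H609.RD.P_DEG2
import Pool.Agent.H609.RD.P_COR2

/-!
# The first `(log m) ^ (2 - ε)` digits of the `d`-th roots of explicit integers `m`

Let `b ≥ 2` be a base, `d ≥ 2` and let `p` be an odd prime which divides neither `b` nor `d`. For all `n` and `r`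
there is exactly one integer `m` in the interval `(b ^ (d n) / p ^ (d r), b ^ (d n) / p ^ (d r) + d ^ 2]` with
`p ^ (d r) m ≡ b ^ (d n)` modulo `d ^ 2`; in other words `p ^ (d r) m = b ^ (d n) + d ^ 2 t` with
`1 ≤ t ≤ p ^ (d r)`. (Example: `b = 10`, `d = 2`, `p = 3`; then `m` is the least multiple of `4` which is larger than
`10 ^ (2 n) / 9 ^ r`, and `m ^ (1 / 2)` is twice the square root of the integer `m / 4`.) It is proved that
the algebraic integer `m ^ (1 / d)` has degree exactly `d` and that in EVERY window of places `s ≤ j < s + L`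
and for EVERY interval `[u, v) ⊆ [0, 1)` the number of the `j` with `u ≤ {b ^ j m ^ (1 / d)} < v` (for
`u = a / b ^ k`, `v = (a + 1) / b ^ k` this is the number of the occurrences of a word of `k` digits) is
`(v - u) L` up to an error of at most

  `C (K L / p ^ r + (p ^ r + r K) (L / n + 1))`,  `K = (s + L) / n + 1`,

where `C` depends on `b`, `p` and `d` only. Here `log m` and `n` are of the same order of magnitude. If `r` is the
integral part of `(1 - ε / 2) log n / log p`, the first `N` digits are equidistributed, words of all lengths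
included, with an error of at most `C N ^ (1 - ε / 4)`, for all `N` between `n` and `n ^ (2 - ε)`, that is, up to
`(log m) ^ (2 - ε)` digits.

So for every base `b`, every degree `d` and every `δ > 0` there are explicit integers `m` such that the first
`(log m) ^ (2 - δ)` digits of `m ^ (1 / d)` behave like those of a normal number. No exceptional set occurs.
`MP_175f55_nt.ExplicitIntegers` reaches `c log m log log m` digits (of the roots of other integers), and
`ExplicitNumbers` is about numbers which are divided by `q` and are not algebraic integers.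

Proof. Let `B = b ^ (d n)`. The series `(1 + d ^ 2 x) ^ (1 / d) = ∑ a k x ^ k` has integral coefficients, so
`p ^ r m ^ (1 / d) = b ^ n ∑ a k t ^ k B ^ (-k)`. Between the places `d n κ - n` and `d n (κ + 1) - n`, except for the
last `O(r (κ + 1))` of them, `b ^ j m ^ (1 / d)` is congruent modulo `1` to `b ^ i U / p ^ r` up to an error of at most
`1 / (2 p ^ r)`, with the integer `U = ∑_{k ≤ κ} a k t ^ k B ^ (κ - k)` (`RD.P_TL`). As `B ≡ - d ^ 2 t` modulo `p ^ r`,
this `U` is congruent to `t ^ κ` times the `κ`-th coefficient of `(1 + d ^ 2 x) ^ (1 / d - 1)`, which is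
`(1 - d κ) a κ = ± d ^ κ ∏_{i ≤ κ} (d i - 1) / κ !` (`RD.P_WID`). The power of `p` in this number is at most `d κ + 1`
(`RD.P_VAL4`). So `U / p ^ r` is a reduced fraction with a denominator which is a power of `p` between
`p ^ r / (d κ + 1)` and `p ^ r`, and the digits run through full periods of `b` modulo that power
(`RI.P_BK1`, `RD.P_BLO`). Then arbitrary windows are cut at the ends of the blocks (`RD.P_CUT`, `RD.P_FIN`).
-/

set_option autoImplicit false

namespace Pool.Agent.Results.MP_f2f914_nt.IntegerRoots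

open Finset

/-- Among the places `s ≤ j < s + L` the number of those with `u ≤ {b ^ j α} < v` is `(v - u) L`, up to an error
of at most `E`, for all intervals `[u, v) ⊆ [0, 1)`. (With `u = a / b ^ k` and `v = (a + 1) / b ^ k` these are the
occurrences of a word of `k` digits.) -/
def EquidistributedIn (b s L : ℕ) (E α : ℝ) : Prop :=
  ∀ u v : ℝ, 0 ≤ u → u ≤ v → v ≤ 1 →
    |((({j ∈ range L | u ≤ Int.fract ((b : ℝ) ^ (s + j) * α) ∧
      Int.fract ((b : ℝ) ^ (s + j) * α) < v} : Finset ℕ).card : ℕ) : ℝ) - (v - u) * L| ≤ E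

/-- **The digits of the roots of explicit integers.** Let `b, d ≥ 2` and let `p` be an odd prime which divides
neither `b` nor `d`. (1) For all `n`, `r` there is exactly one integer `m` with `p ^ (d r) m = b ^ (d n) + d ^ 2 t`
for some `t` with `1 ≤ t ≤ p ^ (d r)`. (2) If `r ≥ 1` and `n ≥ C r`, the number `m ^ (1 / d)` has degree `d` and its
digits are controlled in all windows. (3) For every `ε` and all large `n`, if `r` is the integral part of
`(1 - ε / 2) log n / log p`, the first `N` digits of `m ^ (1 / d)` are equidistributed with a power saving for all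
`n ≤ N ≤ n ^ (2 - ε)`. -/
theorem result (b : ℕ) (hb : 2 ≤ b) (d : ℕ) (hd : 2 ≤ d) (p : ℕ) (hp : p.Prime) (hp2 : p ≠ 2)
    (hpb : ¬ p ∣ b) (hpd : ¬ p ∣ d) :
    (∀ n r : ℕ, ∃! m : ℕ, ∃ t : ℕ, 1 ≤ t ∧ t ≤ p ^ (d * r) ∧
      p ^ (d * r) * m = b ^ (d * n) + d ^ 2 * t) ∧
    (∃ C : ℝ, 0 < C ∧ ∀ n r m t : ℕ, 1 ≤ r → C * r ≤ n → 1 ≤ t → t ≤ p ^ (d * r) →
      p ^ (d * r) * m = b ^ (d * n) + d ^ 2 * t →
      (minpoly ℚ ((m : ℝ) ^ (1 / (d : ℝ)))).natDegree = d ∧
      ∀ s L : ℕ, EquidistributedIn b s L (C * ((((s : ℝ) + L) / n + 1) * L / (p : ℝ) ^ r +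
        ((p : ℝ) ^ r + r * (((s : ℝ) + L) / n + 1)) * (L / n + 1))) ((m : ℝ) ^ (1 / (d : ℝ)))) ∧
    (∀ ε : ℝ, 0 < ε → ε < 1 → ∃ C : ℝ, 0 < C ∧ ∃ n₀ : ℕ, ∀ n : ℕ, n₀ ≤ n →
      ∀ r : ℕ, r = ⌊(1 - ε / 2) * Real.log n / Real.log p⌋₊ →
        ∀ m t : ℕ, 1 ≤ t → t ≤ p ^ (d * r) → p ^ (d * r) * m = b ^ (d * n) + d ^ 2 * t →
          (minpoly ℚ ((m : ℝ) ^ (1 / (d : ℝ)))).natDegree = d ∧
          ∀ N : ℕ, n ≤ N → (N : ℝ) ≤ (n : ℝ) ^ (2 - ε) →
            EquidistributedIn b 0 N (C * (N : ℝ) ^ (1 - ε / 4)) ((m : ℝ) ^ (1 / (d : ℝ)))) := by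
  have hodd : Odd p := hp.odd_of_ne_two hp2
  have hBLO := Pool.Agent.H609.RD.t_BLO Pool.Agent.H609.RD.t_WID Pool.Agent.H609.RD.t_VAL4
    Pool.Agent.H609.RD.t_TL
  have hFIN := Pool.Agent.H609.RD.t_FIN hBLO Pool.Agent.H609.RD.t_CUT
  obtain ⟨h1, h2, h3⟩ := Pool.Agent.H609.RD.final2 hFIN (Pool.Agent.H609.RD.t_COR2 hFIN)
    Pool.Agent.H609.RD.t_DEG2 hb hp hodd hpb hd hpd
  refine ⟨h1, ?_, fun ε hε hε1 => ?_⟩
  · obtain ⟨C, hC, h⟩ := h2
    exact ⟨C, hC, fun n r m t hr hn ht ht2 hm => ⟨(h n r m t hr hn ht ht2 hm).1,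
      fun s L u v hu huv hv => (h n r m t hr hn ht ht2 hm).2 s L u v hu huv hv⟩⟩
  · obtain ⟨C, hC, n₀, h⟩ := h3 ε hε hε1
    refine ⟨C, hC, n₀, fun n hn r hr m t ht ht2 hm =>
      ⟨(h n hn r hr m t ht ht2 hm).1, fun N hnN hN u v hu huv hv => ?_⟩⟩
    have h4 := (h n hn r hr m t ht ht2 hm).2 N hnN hN u v hu huv hv
    simpa only [zero_add] using h4

end Pool.Agent.Results.MP_f2f914_nt.IntegerRoots
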