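import Pool.Agent.H607.Mix.Count
import Pool.Agent.H607.Mix.Digits
import Mathlib

/-!
# Numeration systems with almost all radices equal to `b` in which all irrational algebraic numbers
are normal

Let `b ≥ 2` and `μ > 0`. There is ONE sequence of radices `q_0, q_1, … ≥ 2` such that

* `q_n = b` for all but at most `μ N / log N` of the `n < N`, for all large `N`;
* the other radices are small: they are primes `q_n ≤ (2 n)^18`, and
  `q_0 q_1 ⋯ q_{N-1} ≤ b ^ ((1 + μ) N)` for all large `N`;
* if `x_1, …, x_k` are any real algebraic numbers such that `1, x_1, …, x_k` are linearly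
  independent over `ℚ` (for instance a single irrational real algebraic number), then the sequence
  `(x_1 P_n, …, x_k P_n)`, `P_n = q_0 q_1 ⋯ q_{n-1}`, is equidistributed modulo one, and every
  matrix of base-`b` digits with `k` rows and `m` columns has frequency `b ^ (- m k)` in the digits
  of `x_1, …, x_k` in the numeration system with the radices `q_n`. (The digit of `x` at the place
  `n` is `⌊x P_{n+1}⌋ mod q_n = ⌊q_n {x P_n}⌋`.)

The problem asks whether this holds with `q_n = b` for all `n` for one irrational algebraic number.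

The proof: the exceptional radices are random primes at prescribed places; the correlations of the
sequence `x P_n` are bilinear sums over the random primes before or between the two indices, and are
bounded by means of Schmidt's and Schlickewei's subspace theorem, by which
`g |g b^m x - z| ≥ e^{-ε m}` for all integers `1 ≤ g ≤ e^{c m}`, `z` and
`g² R |g (b^d R - 1) b^m x - z| ≥ e^{-ε m}` for all `1 ≤ g, R, b^d ≤ e^{c m}`, for large `m`.
-/

set_option autoImplicit false

namespace Pool.Agent.Results.MP_f2f914_nt.MixedRadices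

open Finset Filter Topology MeasureTheory
open Pool.Agent.W206.ND (ee)
open Pool.Agent.H607 Pool.Agent.H607.Mix

theorem result (b : ℕ) (hb : 2 ≤ b) (μ : ℝ) (hμ : 0 < μ) :
    ∃ q : ℕ → ℕ, (∀ n, 2 ≤ q n) ∧ (∀ n, q n ≠ b → (q n).Prime ∧ q n ≤ (2 * n) ^ 18) ∧
      (∀ᶠ N : ℕ in atTop, (((range N).filter fun n => q n ≠ b).card : ℝ) ≤ μ * N / Real.log N) ∧
      (∀ᶠ N : ℕ in atTop, ((∏ n ∈ range N, q n : ℕ) : ℝ) ≤ (b : ℝ) ^ ((1 + μ) * N)) ∧
      ∀ (k : ℕ) (x : Fin k → ℝ), (∀ j, IsAlgebraic ℚ (x j)) →
        LinearIndependent ℚ (Fin.cons 1 x : Fin (k + 1) → ℝ) →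
        (∀ a c : Fin k → ℝ, (∀ j, 0 ≤ a j ∧ a j ≤ c j ∧ c j ≤ 1) →
          Tendsto (fun N : ℕ => (((range N).filter (fun n => ∀ j,
            a j ≤ Int.fract (x j * ∏ i ∈ range n, (q i : ℝ)) ∧
            Int.fract (x j * ∏ i ∈ range n, (q i : ℝ)) < c j)).card : ℝ) / N)
            atTop (𝓝 (∏ j, (c j - a j)))) ∧
        ∀ (m : ℕ) (D : Fin k → Fin m → Fin b),
          Tendsto (fun N : ℕ => (((range N).filter (fun n => ∀ (j : Fin k) (t : Fin m),
            ⌊x j * ∏ i ∈ range (n + t + 1), (q i : ℝ)⌋ % (q (n + t) : ℤ) =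
              ((D j t : ℕ) : ℤ))).card : ℝ) / N)
            atTop (𝓝 (1 / (b : ℝ) ^ (m * k))) := by
  classical
  obtain ⟨p, hpb, hpV, hpK⟩ := exists_par b 16 (⌈36 / μ⌉₊ + 1) hb (by norm_num) (by omega)
  have hK : 36 / μ ≤ p.K := by
    rw [hpK]
    push_cast
    exact (Nat.le_ceil _).trans (by linarith)
  have hK0 : (0 : ℝ) < p.K := by exact_mod_cast p.hK
  have hKμ : 36 ≤ μ * p.K := by
    rw [div_le_iff₀ hμ] at hK
    linarith
  -- the random sequence
  have hae : ∀ᵐ ω ∂(unif (wt p)), ∀ y ∈ {y : ℝ | IsAlgebraic ℚ y ∧ Irrational y},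
      Tendsto (fun N : ℕ => SS (fun n => y * an p n ω) N / (N : ℂ)) atTop (𝓝 0) := by
    rw [ae_ball_iff alg_countable]
    intro y hy
    refine as_corr (fun n ω => y * an p n ω) (fun n => ?_) ?_
    · exact ((measurable_from_nat (f := fun k : ℕ => (k : ℝ))).comp (an_meas p n)).const_mul y
    · exact corr_alg p hpV hy.1 hy.2
  obtain ⟨ω, hω⟩ := hae.exists
  have hne : ∀ n, fac p n (ω n) ≠ b → Exc p n := by
    intro n h
    by_contra hn
    apply h
    unfold fac
    rw [if_neg hn, hpb]
  have hfew : ∀ᶠ N : ℕ in atTop,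
      (((range N).filter fun n => fac p n (ω n) ≠ b).card : ℝ) ≤ μ * N / Real.log N := by
    filter_upwards [few_exc p, eventually_ge_atTop 2] with N hN hN2
    have hN2' : (2 : ℝ) ≤ N := by exact_mod_cast hN2
    have hlog : 0 < Real.log N := Real.log_pos (by linarith)
    have h1 : (range N).filter (fun n => fac p n (ω n) ≠ b) ⊆ E p 0 N := by
      intro n hn
      unfold E
      rw [mem_filter, mem_range] at hn
      rw [mem_filter, mem_Ico]
      exact ⟨⟨Nat.zero_le _, hn.1⟩, hne n hn.2⟩
    have h2 : (((range N).filter fun n => fac p n (ω n) ≠ b).card : ℝ) ≤ (E p 0 N).card := by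
      exact_mod_cast card_le_card h1
    refine h2.trans (hN.trans ?_)
    rw [div_le_div_iff₀ (by positivity) hlog]
    have h3 : 0 ≤ (N : ℝ) * Real.log N := by positivity
    nlinarith
  have hzero : Tendsto (fun N : ℕ => (((range N).filter fun n => fac p n (ω n) ≠ b).card : ℝ) / N)
      atTop (𝓝 0) := by
    have h1 : Tendsto (fun N : ℕ => μ / Real.log N) atTop (𝓝 0) :=
      tendsto_const_nhds.div_atTop (Real.tendsto_log_atTop.comp tendsto_natCast_atTop_atTop)
    refine squeeze_zero' (Eventually.of_forall fun N => by positivity) ?_ h1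
    filter_upwards [hfew, eventually_ge_atTop 2] with N hN hN2
    have hN2' : (2 : ℝ) ≤ N := by exact_mod_cast hN2
    rw [div_le_iff₀ (by linarith)]
    refine hN.trans_eq ?_
    ring
  have hanp : ∀ n, (an p n ω : ℝ) = ∏ i ∈ range n, (fac p i (ω i) : ℝ) := by
    intro n
    unfold an
    push_cast
    rfl
  refine ⟨fun n => fac p n (ω n), fun n => fac_two_le p n _, ?_, hfew, ?_, ?_⟩
  · intro n hn
    have he := hne n hn
    refine ⟨fac_prime p he _, (fac_lt p he (ω n)).le.trans ?_⟩
    rw [hpV, Nat.mul_comm (16 + 2), pow_mul]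
    apply Nat.pow_le_pow_left
    have h4 := p.hs₀
    have h5 := he.1
    have h6 : 2 ^ (n.size - 1) ≤ n := Nat.lt_size.1 (by omega)
    calc 2 ^ n.size = 2 ^ (n.size - 1 + 1) := by congr 1; omega
      _ = 2 * 2 ^ (n.size - 1) := by rw [pow_succ]; ring
      _ ≤ 2 * n := Nat.mul_le_mul_left _ h6
  · filter_upwards [prod_le p ω, eventually_ge_atTop 1] with N hN hN1
    have hb' : (1 : ℝ) ≤ b := by exact_mod_cast (by omega : 1 ≤ b)
    have h1 : ((∏ n ∈ range N, fac p n (ω n) : ℕ) : ℝ) = (an p N ω : ℝ) := rfl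
    rw [h1]
    refine hN.trans ?_
    rw [hpb, hpV]
    apply Real.rpow_le_rpow_of_exponent_le hb'
    apply mul_le_mul_of_nonneg_right _ (Nat.cast_nonneg _)
    have h2 : (2 : ℝ) * ((16 : ℕ) + 2) / p.K ≤ μ := by
      rw [div_le_iff₀ hK0]
      push_cast
      linarith
    linarith
  · intro k x hx hlin
    have hbox : ∀ a c : Fin k → ℝ, (∀ j, 0 ≤ a j ∧ a j ≤ c j ∧ c j ≤ 1) →
          Tendsto (fun N : ℕ => (((range N).filter (fun n => ∀ j,
            a j ≤ Int.fract (x j * ∏ i ∈ range n, (fac p i (ω i) : ℝ)) ∧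
            Int.fract (x j * ∏ i ∈ range n, (fac p i (ω i) : ℝ)) < c j)).card : ℝ) / N)
            atTop (𝓝 (∏ j, (c j - a j))) := by
      refine boxes k x (fun n => ∏ i ∈ range n, (fac p i (ω i) : ℝ)) ?_
      intro h hh
      have hy1 : IsAlgebraic ℚ (∑ j, (h j : ℝ) * x j) := by
        refine Finset.sum_induction _ (fun z => IsAlgebraic ℚ z) (fun _ _ ha hb => ha.add hb)
          isAlgebraic_zero fun j _ => ?_
        exact IsAlgebraic.mul (isAlgebraic_intCast (h j)) (hx j)
      have hy2 : Irrational (∑ j, (h j : ℝ) * x j) := by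
        rintro ⟨r, hr⟩
        rw [Fintype.linearIndependent_iff] at hlin
        have h1 := hlin (Fin.cons (-r) fun j => (h j : ℚ)) (by
          rw [Fin.sum_univ_succ]
          simp only [Fin.cons_zero, Fin.cons_succ, Rat.smul_def, Rat.cast_neg, Rat.cast_intCast, mul_one]
          rw [hr]
          ring)
        apply hh
        funext j
        have h2 := h1 j.succ
        rw [Fin.cons_succ] at h2
        exact_mod_cast h2
      refine (hω _ ⟨hy1, hy2⟩).congr fun N => ?_
      congr 2
      funext n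
      rw [hanp]
    refine ⟨hbox, fun m D => ?_⟩
    exact digits b hb (fun n => fac p n (ω n)) hzero k x hbox m D

end Pool.Agent.Results.MP_f2f914_nt.MixedRadices
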